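import Mathlib

/-! Project OM (MP_88bd62_nt): the summatory function `S` of `(-2)^Ω(n)`.
Definitions and the named pieces. -/

namespace Pool.Agent.K1H76.OM
open Finset Filter Topology MeasureTheory

/-- `S x = ∑_{1 ≤ n ≤ x} (-2)^Ω(n)`. -/
noncomputable def S (x : ℝ) : ℝ :=
  ∑ n ∈ Icc 1 ⌊x⌋₊, (-2 : ℝ) ^ (ArithmeticFunction.cardFactors n)

/-- `T x = ∑_{n ≤ x, n odd} (-2)^Ω(n)`. -/
noncomputable def T (x : ℝ) : ℝ :=
  ∑ n ∈ (Icc 1 ⌊x⌋₊).filter (fun n => Odd n), (-2 : ℝ) ^ (ArithmeticFunction.cardFactors n)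

/-- `G y = ∑_{j ≥ 0} (-1)^j T(2^j y) / (2^j y)`. -/
noncomputable def G (y : ℝ) : ℝ := ∑' j : ℕ, (-1 : ℝ) ^ j * (T (2 ^ j * y) / (2 ^ j * y))

/-- `n ↦ (-2)^Ω(n)` on the odd `n`. -/
noncomputable def ao : ArithmeticFunction ℝ :=
  ⟨fun n => if Odd n then (-2 : ℝ) ^ (ArithmeticFunction.cardFactors n) else 0, by simp⟩

/-- the Moebius function on the odd `n`. -/
noncomputable def mo : ArithmeticFunction ℝ :=
  ⟨fun n => if Odd n then ((ArithmeticFunction.moebius n : ℤ) : ℝ) else 0, by simp⟩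

/-- `1` on the odd `n`. -/
noncomputable def zo : ArithmeticFunction ℝ :=
  ⟨fun n => if Odd n then 1 else 0, by simp⟩

/-- the correction factor `h = ao * zo * zo` (Dirichlet convolution), so `ao = mo * mo * h`. -/
noncomputable def ho : ArithmeticFunction ℝ := ao * zo * zo

/-- The partial sums are `O_A(x / (log x)^A)` for all `A`. -/
def Good (f : ArithmeticFunction ℝ) : Prop := ∀ A : ℕ, ∃ C : ℝ, ∀ x : ℝ, 1 ≤ x →
  |∑ n ∈ Icc 1 ⌊x⌋₊, f n| ≤ C * x / (1 + Real.log x) ^ A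

/-- MU -/
def S_MU : Prop := Good mo

/-- GG : hyperbola method -/
def S_GG : Prop := ∀ f g : ArithmeticFunction ℝ, (∀ n, |f n| ≤ 1) → (∀ n, |g n| ≤ 1) →
  Good f → Good g → Good (f * g)

/-- HG : convolution with a small function -/
def S_HG : Prop := ∀ f h : ArithmeticFunction ℝ,
  Summable (fun n : ℕ => |h n| * (n : ℝ) ^ (-(9 / 10) : ℝ)) → Good f → Good (f * h)

/-- HX : the factorization of `ao`. -/
def S_HX : Prop := ao = mo * mo * ho ∧ ho.IsMultiplicative ∧ (∀ k : ℕ, 1 ≤ k → ho (2 ^ k) = 0) ∧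
  (∀ p k : ℕ, p.Prime → p ≠ 2 → ho (p ^ k) = (4 / 9) * (-2) ^ k + 2 / 9 + (k + 1) / 3)

/-- HS : absolute convergence. -/
def S_HS : Prop := Summable (fun n : ℕ => |ho n| * (n : ℝ) ^ (-(9 / 10) : ℝ))

/-- REC : splitting by the power of 2. -/
def S_REC : Prop := ∀ x : ℝ, 0 ≤ x → ∀ K : ℕ, x < 2 ^ K →
  S x = ∑ i ∈ range K, (-2 : ℝ) ^ i * T (x / 2 ^ i)

/-- LIM : `S(2^k y)/(2^k y)` is close to `(-1)^k G y`, uniformly. -/
def S_LIM : Prop :=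
  (∀ y : ℝ, 1 ≤ y → Summable (fun j : ℕ => |T (2 ^ j * y) / (2 ^ j * y)|)) ∧
  ∀ A : ℕ, ∃ C : ℝ, ∀ k : ℕ, ∀ y : ℝ, 1 ≤ y → y < 2 →
    |S (2 ^ k * y) / (2 ^ k * y) - (-1) ^ k * G y| ≤ C / ((k : ℝ) + 1) ^ A

/-- SUP : the limsup is the supremum. -/
def S_SUP : Prop :=
  BddAbove ((fun y => |G y|) '' Set.Ico 1 2) ∧
  limsup (fun x : ℝ => ((|S x| / x : ℝ) : EReal)) atTop =
    ((sSup ((fun y => |G y|) '' Set.Ico 1 2) : ℝ) : EReal) ∧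
  limsup (fun x : ℝ => ((S x / x : ℝ) : EReal)) atTop =
    ((sSup ((fun y => |G y|) '' Set.Ico 1 2) : ℝ) : EReal) ∧
  liminf (fun x : ℝ => ((S x / x : ℝ) : EReal)) atTop =
    ((-sSup ((fun y => |G y|) '' Set.Ico 1 2) : ℝ) : EReal)

/-- `s_k = 1 + i π (2k+1)/log 2`. -/
noncomputable def sk (k : ℤ) : ℂ := 1 + Complex.I * (Real.pi * (2 * k + 1) / Real.log 2)

/-- F1 : unfolding the Fourier integral. -/
def S_F1 : Prop := ∀ k : ℤ, IntegrableOn (fun x : ℝ => (T x : ℂ) * (x : ℂ) ^ (-(sk k + 1))) (Set.Ioi 1) ∧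
  ∫ y in (1:ℝ)..2, (G y : ℂ) * (y : ℂ) ^ (-(sk k)) =
    ∫ x in Set.Ioi (1:ℝ), (T x : ℂ) * (x : ℂ) ^ (-(sk k + 1))

/-- F2 : the integral as a limit of Dirichlet series. -/
def S_F2 : Prop := ∀ k : ℤ, Tendsto
  (fun δ : ℝ => LSeries (fun n => (ao n : ℂ)) (sk k + δ) / (sk k + δ)) (𝓝[>] 0)
    (𝓝 (∫ x in Set.Ioi (1:ℝ), (T x : ℂ) * (x : ℂ) ^ (-(sk k + 1))))

/-- F3 : the Dirichlet series of `ao` in terms of `ζ`. -/
def S_F3 : Prop := ∀ s : ℂ, 1 < s.re → LSeriesSummable (fun n => (ao n : ℂ)) s ∧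
  LSeries (fun n => (ao n : ℂ)) s * ((1 - 2 ^ (-s)) * riemannZeta s) ^ 2 =
    LSeries (fun n => (ho n : ℂ)) s

/-- F4 : the Euler product of the correction factor. -/
def S_F4 : Prop := ∀ s : ℂ, 9 / 10 < s.re → LSeriesSummable (fun n => (ho n : ℂ)) s ∧
  HasProd (fun p : Nat.Primes => if (p : ℕ) = 2 then (1 : ℂ) else
    (1 - 3 * ((p : ℕ) : ℂ) ^ (-(2 * s)) + 2 * ((p : ℕ) : ℂ) ^ (-(3 * s)))⁻¹)
    (LSeries (fun n => (ho n : ℂ)) s)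

/-- FC : the Fourier coefficients of `G`. -/
def S_FC : Prop := ∀ k : ℤ, ∫ y in (1:ℝ)..2, (G y : ℂ) * (y : ℂ) ^ (-(sk k)) =
  4 / (9 * sk k * riemannZeta (sk k) ^ 2) *
    ∏' p : Nat.Primes, (if (p : ℕ) = 2 then (1 : ℂ) else
      (1 - 3 * ((p : ℕ) : ℂ) ^ (-(2 * sk k)) + 2 * ((p : ℕ) : ℂ) ^ (-(3 * sk k)))⁻¹)

end Pool.Agent.K1H76.OM
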