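import Pool.Agent.K1H76.OM.Stm

/-! Project OM, numerical part: `3/4 ≤ sup |G|`. Data and the named pieces. -/

namespace Pool.Agent.K1H76.OM
open Finset Filter Topology MeasureTheory

/-- coefficients `(a_k, b_k)`, `k < 8`, of the test function `Wf`. -/
def wd : List (ℤ × ℤ) := [(-111583208799479906100, 194790098273169017745), (206646130663498500900, -619560877693059155), (-89698403602219618404, -150758893740656150803), (-67337845231952611404, 121397870950657451297), (97396433556902038140, -1484670814266541755), (-33295461574925586060, -49849074439384311455), (-13780974000923658036, 29123602719903358177), (11653328989100840964, 740900804569602677)]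

/-- approximate values `(x_k, y_k, d_k)`, in units of `10^(-6)`, of the Fourier integrals. -/
def Jd : List (ℤ × ℤ × ℤ) := [(1787, -137203, 194), (149778, -23401, 420), (-4088, -20242, 93), (-13757, -33486, 468), (15610, -43179, 1622), (-19994, -21008, 2037), (14507, -4691, 1380), (-1248, -8312, 798)]

/-- `(p, c, s)` with `p^(iπ/log 2) ≈ (c + i s)/10^6`. -/
def tab : List (ℕ × ℤ × ℤ) := [(3, 263759, -964588), (5, 530703, 847558), (7, -822381, 568937), (11, -127105, -991889), (13, 588902, -808204), (17, 962487, 271328), (19, 711696, 702488), (23, -73954, 997262), (29, -902108, 431510), (31, -989665, 143400)]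

noncomputable def wa (k : ℕ) : ℝ := ((wd.getD k (0, 0)).1 : ℝ)
noncomputable def wb (k : ℕ) : ℝ := ((wd.getD k (0, 0)).2 : ℝ)

/-- The test function
`Wf φ = 2^14 sin φ ∏_i (A_i sin φ - B_i cos φ)` (14 factors). -/
noncomputable def Wf (φ : ℝ) : ℝ :=
  ∑ k ∈ range 8, (wa k * Real.cos ((2 * k + 1) * φ) + wb k * Real.sin ((2 * k + 1) * φ))

/-- L1 : the norm of the test function. -/
def S_L1 : Prop := ∫ φ in (0:ℝ)..Real.pi, |Wf φ| ≤ 362738000000000000000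

/-- EM : Euler-Maclaurin for zeta. -/
def S_EM : Prop := ∀ s : ℂ, 1 ≤ s.re → s ≠ 1 → ∀ N : ℕ, 1 ≤ N →
  ‖riemannZeta s - (∑ n ∈ Icc 1 N, (n : ℂ) ^ (-s) + (N : ℂ) ^ (1 - s) / (s - 1)
    - (N : ℂ) ^ (-s) / 2 + s * (N : ℂ) ^ (-s - 1) / 12)‖ ≤
  ‖s‖ * ‖s + 1‖ * ‖s + 2‖ / (120 * (s.re + 2) * (N : ℝ) ^ (s.re + 2))

/-- TR : `p^(iπ/log 2)` for the ten odd primes up to 31. -/
def S_TR : Prop := ∀ e ∈ tab,
  |Real.cos (Real.pi * Real.log e.1 / Real.log 2) - e.2.1 / 10 ^ 6| ≤ 2 / 10 ^ 6 ∧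
  |Real.sin (Real.pi * Real.log e.1 / Real.log 2) - e.2.2 / 10 ^ 6| ≤ 2 / 10 ^ 6

/-- The infinite product of `S_FC`. -/
noncomputable def PP (k : ℤ) : ℂ := ∏' p : Nat.Primes, (if (p : ℕ) = 2 then (1 : ℂ) else
      (1 - 3 * ((p : ℕ) : ℂ) ^ (-(2 * sk k)) + 2 * ((p : ℕ) : ℂ) ^ (-(3 * sk k)))⁻¹)

/-- HP : the product by `ζ(2 s)` and the primes up to 31. -/
def S_HP : Prop := ∀ k : ℤ, ∃ t : ℂ, ‖t - 1‖ ≤ 1 / 1000 ∧
  PP k = (3 / 4 * riemannZeta (2 * sk k)) ^ 3 *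
    (∏ p ∈ ({3, 5, 7, 11, 13, 17, 19, 23, 29, 31} : Finset ℕ),
      (1 - (p : ℂ) ^ (-sk k)) * (1 + (p : ℂ) ^ (-sk k)) ^ 3 / (1 + 2 * (p : ℂ) ^ (-sk k))) * t

/-- JJ : the eight Fourier integrals. -/
def S_JJ : Prop := ∀ k : ℕ, k < 8 →
  ‖4 / (9 * sk k * riemannZeta (sk k) ^ 2) * PP k -
    (((Jd.getD k (0, 0, 0)).1 : ℂ) + ((Jd.getD k (0, 0, 0)).2.1 : ℂ) * Complex.I) / 10 ^ 6‖ ≤
  ((Jd.getD k (0, 0, 0)).2.2 : ℝ) / 10 ^ 6

/-- LB : the lower bound. -/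
def S_LB : Prop := ∃ y : ℝ, 1 ≤ y ∧ y < 2 ∧ 3 / 4 ≤ |G y|

end Pool.Agent.K1H76.OM
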