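import Pool.Agent.K1H96.OM.Mu
import Pool.Agent.K1H61.OM.Conv
import Pool.Agent.K1H26.OM.HX
import Pool.Agent.K1H25.OM.HS
import Pool.Agent.K1H13.OM.RecLim
import Pool.Agent.K1H98.OM.SUP
import Pool.Agent.K1H10.OM.F1
import Pool.Agent.K1H16.OM.F23
import Pool.Agent.K1H94.OM.F4
import Pool.Agent.K1H28.OM.FC

/-! Project OM: assembly of the pieces, no hypotheses left. -/

namespace Pool.Agent.K1H76.OM
open Finset Filter Topology MeasureTheory

theorem hx : S_HX := Pool.Agent.K1H26.OM.t_HX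
theorem hs : S_HS := Pool.Agent.K1H25.OM.t_HS hx
theorem mo_le (n : ℕ) : |mo n| ≤ 1 := by
  have h : mo n = if Odd n then ((ArithmeticFunction.moebius n : ℤ) : ℝ) else 0 := rfl
  rw [h]
  split_ifs
  · have := ArithmeticFunction.abs_moebius_le_one (n := n)
    exact_mod_cast this
  · simp

/-- The partial sums of `(-2)^Ω(n)` over odd `n` are `O_A(x/(log x)^A)`. -/
theorem good_ao : Good ao := by
  have h1 : Good (mo * mo) := Pool.Agent.K1H61.OM.t_GG mo mo mo_le mo_le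
    Pool.Agent.K1H96.OM.t_MU Pool.Agent.K1H96.OM.t_MU
  have h2 : Good (mo * mo * ho) := Pool.Agent.K1H61.OM.t_HG (mo * mo) ho hs h1
  rw [hx.1]
  exact h2

theorem lim : S_LIM := Pool.Agent.K1H13.OM.t_LIM good_ao Pool.Agent.K1H13.OM.t_REC
theorem sup : S_SUP := Pool.Agent.K1H98.OM.t_SUP lim
theorem f3 : S_F3 := Pool.Agent.K1H16.OM.t_F3 hx hs
theorem fc : S_FC := Pool.Agent.K1H28.OM.t_FC (Pool.Agent.K1H10.OM.t_F1 good_ao)
  (Pool.Agent.K1H16.OM.t_F2 good_ao f3) f3 (Pool.Agent.K1H94.OM.t_F4 hx hs)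

end Pool.Agent.K1H76.OM
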